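import Pool.Agent.K7.H32.FT.Stm2

/-!
# Project FT, job JP: `S_PRI` and `S_REAL`
-/

set_option autoImplicit false

namespace Pool.Agent.K7.H39.FTJP

open Finset Matrix Filter Pool.Agent.H550R3.Jones Pool.Agent.W715.VC Polynomial
open Pool.Agent.K7.H32.FT

variable {N : ℕ}

/-- `f` vanishes on the states of length `n` -/
def Z (n : ℕ) (f : St N) : Prop := ∀ s, s.length = n → f s = 0

/-- locality -/
def Loc (n : ℕ) (Q : St N →ₗ[ℂ] St N) : Prop := ∀ f, Z n f → Z n (Q f)

lemma Loc.congr {n : ℕ} {Q : St N →ₗ[ℂ] St N} (h : Loc n Q) {f g : St N}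
    (hfg : ∀ s, s.length = n → f s = g s) : ∀ s, s.length = n → Q f s = Q g s := by
  intro s hs
  have h1 := h (f - g) (fun t ht => by rw [Pi.sub_apply, hfg t ht, sub_self]) s hs
  rw [map_sub, Pi.sub_apply, sub_eq_zero] at h1
  exact h1

/-! ### locality of the operators -/

lemma eo_loc (v : ℂ) (f : St N) (s : List (Fin N))
    (h : ∀ t, t.length = s.length → isum t = isum s + 1 → f t = 0) : eo v f s = 0 := by
  have h1 := eo_mu v s (fun n y => if n = s.length ∧ y = isum s + 1 then 1 else 0) f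
  have h2 : mu (fun n y => if n = s.length ∧ y = isum s + 1 then (1 : ℂ) else 0) f = 0 := by
    funext t
    rw [mu_apply]
    split_ifs with h3
    · rw [h t h3.1 h3.2]; simp
    · simp
  rw [h2, map_zero] at h1
  simpa using h1.symm

lemma fo_loc (v : ℂ) (f : St N) (s : List (Fin N))
    (h : ∀ t, t.length = s.length → isum t = isum s - 1 → f t = 0) : fo v f s = 0 := by
  have h1 := fo_mu v s (fun n y => if n = s.length ∧ y = isum s - 1 then 1 else 0) f
  have h2 : mu (fun n y => if n = s.length ∧ y = isum s - 1 then (1 : ℂ) else 0) f = 0 := by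
    funext t
    rw [mu_apply]
    split_ifs with h3
    · rw [h t h3.1 h3.2]; simp
    · simp
  rw [h2, map_zero] at h1
  simpa using h1.symm

lemma cr_loc' {R : Mx N} (hR : Wp R) (i : ℕ) (f : St N) (s : List (Fin N))
    (h : ∀ t, t.length = s.length → isum t = isum s → f t = 0) : cr R i f s = 0 := by
  have h1 := cr_mu hR i (fun n y => if n = s.length ∧ y = isum s then 1 else 0) f s
  have h2 : mu (fun n y => if n = s.length ∧ y = isum s then (1 : ℂ) else 0) f = 0 := by
    funext t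
    rw [mu_apply]
    split_ifs with h3
    · rw [h t h3.1 h3.2]; simp
    · simp
  rw [h2, map_zero] at h1
  simpa using h1.symm

lemma loc_eo (v : ℂ) (n : ℕ) : Loc n (eo (N := N) v) := fun _ hf s hs =>
  eo_loc v _ s fun t ht _ => hf t (ht.trans hs)

lemma loc_fo (v : ℂ) (n : ℕ) : Loc n (fo (N := N) v) := fun _ hf s hs =>
  fo_loc v _ s fun t ht _ => hf t (ht.trans hs)

lemma loc_cr {R : Mx N} (hR : Wp R) (i n : ℕ) : Loc n (cr R i) := fun _ hf s hs =>
  cr_loc' hR i _ s fun t ht _ => hf t (ht.trans hs)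

lemma loc_mu (φ : ℕ → ℤ → ℂ) (n : ℕ) : Loc n (mu (N := N) φ) := fun f hf s hs => by
  rw [mu_apply, hf s hs, mul_zero]

lemma loc_id (n : ℕ) : Loc n (LinearMap.id : St N →ₗ[ℂ] St N) := fun _ hf => hf

lemma Loc.comp {n : ℕ} {Q R : St N →ₗ[ℂ] St N} (hQ : Loc n Q) (hR : Loc n R) :
    Loc n (Q.comp R) := fun f hf => hQ _ (hR f hf)

lemma Loc.mul {n : ℕ} {Q R : St N →ₗ[ℂ] St N} (hQ : Loc n Q) (hR : Loc n R) :
    Loc n (Q * R) := fun f hf => hQ _ (hR f hf)

lemma Loc.add {n : ℕ} {Q R : St N →ₗ[ℂ] St N} (hQ : Loc n Q) (hR : Loc n R) :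
    Loc n (Q + R) := fun f hf s hs => by
  rw [LinearMap.add_apply, Pi.add_apply, hQ f hf s hs, hR f hf s hs, add_zero]

lemma Loc.sub {n : ℕ} {Q R : St N →ₗ[ℂ] St N} (hQ : Loc n Q) (hR : Loc n R) :
    Loc n (Q - R) := fun f hf s hs => by
  rw [LinearMap.sub_apply, Pi.sub_apply, hQ f hf s hs, hR f hf s hs, sub_zero]

lemma Loc.smul {n : ℕ} {Q : St N →ₗ[ℂ] St N} (hQ : Loc n Q) (c : ℂ) :
    Loc n (c • Q) := fun f hf s hs => by
  rw [LinearMap.smul_apply, Pi.smul_apply, hQ f hf s hs, smul_zero]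

lemma Loc.pow {n : ℕ} {Q : St N →ₗ[ℂ] St N} (hQ : Loc n Q) (A : ℕ) : Loc n (Q ^ A) := by
  induction A with
  | zero => exact fun f hf => hf
  | succ A ih => rw [pow_succ]; exact ih.mul hQ

lemma Loc.sum {n : ℕ} {ι : Type} (t : Finset ι) {Q : ι → (St N →ₗ[ℂ] St N)}
    (hQ : ∀ i ∈ t, Loc n (Q i)) : Loc n (∑ i ∈ t, Q i) := fun f hf s hs => by
  rw [LinearMap.sum_apply, Finset.sum_apply]
  exact sum_eq_zero fun i hi => hQ i hi f hf s hs

/-! ### the form -/

lemma sm_congr {M : Type} [AddCommMonoid M] (n : ℕ) : ∀ (h h' : List (Fin N) → M),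
    (∀ s, s.length = n → h s = h' s) → sm n h = sm n h' := by
  induction n with
  | zero => intro h h' H; exact H [] rfl
  | succ n ih =>
    intro h h' H
    exact sum_congr rfl fun a _ => ih _ _ fun s hs => H (a :: s) (by simp [hs])

lemma sm_zero {M : Type} [AddCommMonoid M] (n : ℕ) :
    sm n (fun _ : List (Fin N) => (0 : M)) = 0 := by
  induction n with
  | zero => rfl
  | succ n ih => exact sum_eq_zero fun a _ => ih

lemma sm_add (n : ℕ) : ∀ (h h' : List (Fin N) → ℂ),
    sm n (fun s => h s + h' s) = sm n h + sm n h' := by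
  induction n with
  | zero => intro h h'; rfl
  | succ n ih =>
    intro h h'
    show ∑ a, sm n _ = ∑ a, sm n _ + ∑ a, sm n _
    rw [← sum_add_distrib]
    exact sum_congr rfl fun a _ => ih _ _

lemma sm_mul (n : ℕ) (c : ℂ) : ∀ (h : List (Fin N) → ℂ),
    sm n (fun s => c * h s) = c * sm n h := by
  induction n with
  | zero => intro h; rfl
  | succ n ih =>
    intro h
    show ∑ a, sm n _ = c * ∑ a, sm n _
    rw [mul_sum]
    exact sum_congr rfl fun a _ => ih _

lemma sm_conj (n : ℕ) : ∀ (h : List (Fin N) → ℂ),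
    (starRingEnd ℂ) (sm n h) = sm n (fun s => (starRingEnd ℂ) (h s)) := by
  induction n with
  | zero => intro h; rfl
  | succ n ih =>
    intro h
    show (starRingEnd ℂ) (∑ a, sm n _) = ∑ a, sm n _
    rw [map_sum]
    exact sum_congr rfl fun a _ => ih _

lemma ip_conj (x : ℝ) (n : ℕ) (f g : St N) : (starRingEnd ℂ) (ip x n f g) = ip x n g f := by
  unfold ip
  rw [sm_conj]
  refine sm_congr n _ _ fun s _ => ?_
  simp only [map_mul, Complex.conj_ofReal, Complex.conj_conj]
  ring

lemma ip_zero_right (x : ℝ) (n : ℕ) (f g : St N) (hg : Z n g) : ip x n f g = 0 := by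
  unfold ip
  rw [← sm_zero (N := N) (M := ℂ) n]
  exact sm_congr n _ _ fun s hs => by rw [hg s hs]; ring

lemma ip_add_right (x : ℝ) (n : ℕ) (f g h : St N) :
    ip x n f (g + h) = ip x n f g + ip x n f h := by
  unfold ip
  rw [← sm_add]
  exact sm_congr n _ _ fun s _ => by rw [Pi.add_apply]; ring

lemma ip_smul_right (x : ℝ) (n : ℕ) (c : ℂ) (f g : St N) :
    ip x n f (c • g) = c * ip x n f g := by
  unfold ip
  rw [← sm_mul]
  exact sm_congr n _ _ fun s _ => by rw [Pi.smul_apply, smul_eq_mul]; ring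

lemma ip_add_left (x : ℝ) (n : ℕ) (f g h : St N) :
    ip x n (g + h) f = ip x n g f + ip x n h f := by
  rw [← ip_conj, ip_add_right, map_add, ip_conj, ip_conj]

lemma ip_smul_left (x : ℝ) (n : ℕ) (c : ℂ) (hc : (starRingEnd ℂ) c = c) (f g : St N) :
    ip x n (c • g) f = c * ip x n g f := by
  rw [← ip_conj, ip_smul_right, map_mul, ip_conj, hc]

/-! ### self-adjoint operators -/

lemma sa_id (x : ℝ) (n : ℕ) : SA (N := N) x n LinearMap.id := fun _ _ => rfl

lemma sa_one (x : ℝ) (n : ℕ) : SA (N := N) x n 1 := fun _ _ => rfl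

lemma sa_add {x : ℝ} {n : ℕ} {Q R : St N →ₗ[ℂ] St N} (hQ : SA x n Q) (hR : SA x n R) :
    SA x n (Q + R) := fun f g => by
  rw [LinearMap.add_apply, LinearMap.add_apply, ip_add_left, ip_add_right, hQ, hR]

lemma sa_smul {x : ℝ} {n : ℕ} {Q : St N →ₗ[ℂ] St N} (hQ : SA x n Q) {c : ℂ}
    (hc : (starRingEnd ℂ) c = c) : SA x n (c • Q) := fun f g => by
  rw [LinearMap.smul_apply, LinearMap.smul_apply, ip_smul_left _ _ _ hc, ip_smul_right, hQ]

lemma sa_neg {x : ℝ} {n : ℕ} {Q : St N →ₗ[ℂ] St N} (hQ : SA x n Q) : SA x n (-Q) := by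
  have h := sa_smul hQ (c := (-1 : ℂ)) (by simp)
  have h1 : (-1 : ℂ) • Q = -Q := by
    refine LinearMap.ext fun f => ?_
    rw [LinearMap.smul_apply, LinearMap.neg_apply, neg_smul, one_smul]
  rwa [h1] at h

lemma sa_sub {x : ℝ} {n : ℕ} {Q R : St N →ₗ[ℂ] St N} (hQ : SA x n Q) (hR : SA x n R) :
    SA x n (Q - R) := by rw [sub_eq_add_neg]; exact sa_add hQ (sa_neg hR)

lemma sa_mul {x : ℝ} {n : ℕ} {Q R : St N →ₗ[ℂ] St N} (hQ : SA x n Q) (hR : SA x n R)
    (h : Q * R = R * Q) : SA x n (Q * R) := fun f g => by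
  have h1 : (Q * R) g = R (Q g) := by rw [h]; rfl
  rw [h1]
  show ip x n (Q (R f)) g = _
  rw [hQ, hR]

lemma sa_pow {x : ℝ} {n : ℕ} {Q : St N →ₗ[ℂ] St N} (hQ : SA x n Q) (A : ℕ) : SA x n (Q ^ A) := by
  induction A with
  | zero => exact sa_one x n
  | succ A ih => rw [pow_succ]; exact sa_mul ih hQ (by rw [← pow_succ, ← pow_succ'])

lemma sa_sum {x : ℝ} {n : ℕ} {ι : Type} [DecidableEq ι] (t : Finset ι)
    {Q : ι → (St N →ₗ[ℂ] St N)} :
    (∀ i ∈ t, SA x n (Q i)) → SA x n (∑ i ∈ t, Q i) := by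
  induction t using Finset.induction_on with
  | empty =>
    intro _ f g
    have h : ip x n f (0 : St N) = 0 := ip_zero_right x n f 0 fun _ _ => rfl
    rw [sum_empty, LinearMap.zero_apply, LinearMap.zero_apply, h, ← ip_conj,
      ip_zero_right x n g 0 fun _ _ => rfl, map_zero]
  | insert a s ha ih =>
    intro h
    rw [sum_insert ha]
    exact sa_add (h a (mem_insert_self _ _)) (ih fun i hi => h i (mem_insert_of_mem hi))

/-! ### the principle -/

lemma pow_comm_E {x : ℝ} {n : ℕ} {Q : St N →ₗ[ℂ] St N}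
    (hc : ∀ f s, s.length = n → eo x (Q f) s = Q (eo x f) s) (hl : Loc n Q) (j : ℕ) :
    ∀ f s, s.length = n → eo x ((Q ^ j) f) s = (Q ^ j) (eo x f) s := by
  induction j with
  | zero => intro f s _; rfl
  | succ j ih =>
    intro f s hs
    have h1 : ∀ g : St N, (Q ^ (j + 1)) g = Q ((Q ^ j) g) := fun g => by rw [pow_succ']; rfl
    rw [h1, h1, hc _ s hs]
    exact hl.congr (ih f) s hs

lemma Epow_zero (v : ℂ) (n : ℕ) : ∀ (j : ℕ) (f : St N) (s : List (Fin N)), s.length = n →
    (n : ℤ) * ((N : ℤ) - 1) + 1 ≤ isum s + j → ((eo v) ^ j) f s = 0 := by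
  have hle : ∀ s : List (Fin N), isum s ≤ s.length * ((N : ℤ) - 1) := by
    intro s
    induction s with
    | nil => simp
    | cons a s ih =>
      rw [isum_cons, List.length_cons]
      push_cast
      have := a.2
      have h2 : ((a : ℕ) : ℤ) ≤ (N : ℤ) - 1 := by omega
      linarith
  intro j
  induction j with
  | zero =>
    intro f s hs h
    have := hle s
    rw [hs] at this
    push_cast at h
    omega
  | succ j ih =>
    intro f s hs h
    rw [pow_succ']
    show eo v (((eo v) ^ j) f) s = 0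
    refine eo_loc v _ s fun t ht ht2 => ih f t (ht.trans hs) ?_
    rw [ht2]
    push_cast at h
    linarith

lemma isum_nonneg (s : List (Fin N)) : 0 ≤ isum s := by
  induction s with
  | nil => simp
  | cons a s ih => rw [isum_cons]; positivity

theorem t_pri : S_PRI := by
  intro hpos N x hx n Q hSA hc hl hK f s hs
  have hloc : Loc n Q := fun f hf s hs => hl f hf s hs
  -- `Q ^ j` kills the kernel of `E ^ j`
  have h1 : ∀ (j : ℕ) (f : St N), Z n (((eo (x : ℂ)) ^ j) f) → Z n ((Q ^ j) f) := by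
    intro j
    induction j with
    | zero => intro f hf; exact hf
    | succ j ih =>
      intro f hf
      have h2 : Z n ((Q ^ j) (eo (x : ℂ) f)) := ih _ (by
        have h3 : ((eo (x : ℂ)) ^ j) (eo (x : ℂ) f) = ((eo (x : ℂ)) ^ (j + 1)) f := by
          rw [pow_succ]; rfl
        rw [h3]; exact hf)
      have h4 : KE (x : ℂ) n ((Q ^ j) f) := fun s hs => by
        rw [pow_comm_E hc hloc j f s hs]; exact h2 s hs
      have h5 : (Q ^ (j + 1)) f = Q ((Q ^ j) f) := by rw [pow_succ']; rfl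
      rw [h5]
      exact hK _ h4
  have h2 : Z n ((Q ^ (n * N + 2)) f) := by
    refine h1 _ f fun s hs => Epow_zero _ n _ f s hs ?_
    have h3 := isum_nonneg s
    push_cast
    nlinarith [(Nat.cast_nonneg n : (0 : ℤ) ≤ n)]
  -- descend
  have h3 : ∀ (g : St N), Z n (Q (Q g)) → Z n (Q g) := by
    intro g hg
    refine (hpos N x hx n).2.1 (Q g) ?_
    rw [hSA]
    exact ip_zero_right x n g _ hg
  have h4 : ∀ j : ℕ, Z n ((Q ^ (j + 1)) f) → Z n (Q f) := by
    intro j
    induction j with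
    | zero => intro h; simpa using h
    | succ j ih =>
      intro h
      refine ih ?_
      have h5 : (Q ^ (j + 1)) f = Q ((Q ^ j) f) := by rw [pow_succ']; rfl
      have h6 : (Q ^ (j + 1 + 1)) f = Q (Q ((Q ^ j) f)) := by rw [pow_succ', pow_succ']; rfl
      rw [h5]
      rw [h6] at h
      exact h3 _ h
  exact h4 (n * N + 1) h2 s hs

/-! ### real parameters -/

lemma real_ne {x : ℝ} (hx : 1 < x) : (x : ℂ) ≠ 0 := by
  have : x ≠ 0 := by linarith
  exact_mod_cast this

lemma br_real_ne {x : ℝ} (hx : 1 < x) {k : ℤ} (hk : k ≠ 0) : br (x : ℂ) k ≠ 0 := by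
  unfold br
  intro h
  have h1 : (x : ℂ) ^ k = (x : ℂ) ^ (-k) := sub_eq_zero.1 h
  have h2 : x ^ k = x ^ (-k) := by exact_mod_cast h1
  have h3 : k = -k := zpow_right_injective₀ (by linarith) (by linarith [hx] : x ≠ 1) h2
  omega

lemma adm_real {x : ℝ} (hx : 1 < x) : Adm N (x : ℂ) :=
  ⟨real_ne hx, fun k hk _ => br_real_ne hx (by exact_mod_cast hk.ne')⟩

/-! ### the crossings -/

lemma wp_Rm (v : ℂ) (σ : Bool) : Wp (Rm N v σ) := by
  intro p q h
  unfold Rm at h
  split_ifs at h
  · exact_mod_cast P_wt h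
  · exact_mod_cast Q_wt h

lemma Rm_comm {v : ℂ} (hv : Adm N v) (σ : Bool) :
    Rm N v σ * (W v N).E = (W v N).E * Rm N v σ := by
  unfold Rm
  split_ifs
  · exact P_comm_E hv
  · exact comm_inv (PQ hv) (QP hv) (P_comm_E hv)

lemma comm_cr {v : ℂ} (hv : Adm N v) (σ : Bool) (i : ℕ) :
    Commute (eo v) (cr (Rm N v σ) i) := by
  refine LinearMap.ext fun f => funext fun s => ?_
  exact eo_cr hv.1 (wp_Rm v σ) (Rm_comm hv σ) i f s

lemma opw_cons (R : Mx N) (i : ℕ) (w : List ℕ) : opw R (i :: w) = opw R w * cr R i := rfl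

lemma opw_append (R : Mx N) (u w : List ℕ) : opw R (u ++ w) = opw R w * opw R u := by
  induction u with
  | nil => exact (mul_one _).symm
  | cons i u ih => rw [List.cons_append, opw_cons, opw_cons, ih, mul_assoc]

lemma comm_opw {v : ℂ} (hv : Adm N v) (σ : Bool) (w : List ℕ) :
    Commute (eo v) (opw (Rm N v σ) w) := by
  induction w with
  | nil => exact Commute.one_right _
  | cons i w ih => rw [opw_cons]; exact ih.mul_right (comm_cr hv σ i)

lemma loc_opw {R : Mx N} (hR : Wp R) (n : ℕ) (w : List ℕ) : Loc n (opw R w) := by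
  induction w with
  | nil => exact loc_id n
  | cons i w ih => rw [opw_cons]; exact ih.mul (loc_cr hR i n)

lemma opw_mu {R : Mx N} (hR : Wp R) (w : List ℕ) (φ : ℕ → ℤ → ℂ) : ∀ (f : St N),
    opw R w (mu φ f) = mu φ (opw R w f) := by
  induction w with
  | nil => intro f; rfl
  | cons i w ih =>
    intro f
    rw [opw_cons]
    show opw R w (cr R i (mu φ f)) = mu φ (opw R w (cr R i f))
    rw [cr_mu' hR, ih]

lemma cr_cr {R R' : Mx N} (h : R * R' = 1) (i : ℕ) : ∀ (f : St N) (s : List (Fin N)),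
    i + 2 ≤ s.length → cr R i (cr R' i f) s = f s := by
  induction i with
  | zero =>
    intro f s hs
    rcases s with _ | ⟨a, _ | ⟨b, r⟩⟩
    · simp at hs
    · simp at hs
    · rw [cr_zero]
      have h1 : (fun p : Fin N × Fin N => cr R' 0 f (p.1 :: p.2 :: r)) =
          R' *ᵥ (fun p : Fin N × Fin N => f (p.1 :: p.2 :: r)) := by
        funext p
        rw [cr_zero]; rfl
      show (R *ᵥ (fun p : Fin N × Fin N => cr R' 0 f (p.1 :: p.2 :: r))) (a, b) = _
      rw [h1, Matrix.mulVec_mulVec, h, Matrix.one_mulVec]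
  | succ i ih =>
    intro f s hs
    rcases s with _ | ⟨a, s⟩
    · simp at hs
    · rw [cr_succ, cm_cr_succ, ih _ _ (by simpa using hs)]
      rfl

lemma opw_inv {R R' : Mx N} (hR : Wp R) (h : R * R' = 1) {n : ℕ} : ∀ (w : List ℕ),
    (∀ i ∈ w, i + 2 ≤ n) → ∀ (f : St N) (s : List (Fin N)), s.length = n →
      opw R w.reverse (opw R' w f) s = f s := by
  intro w
  induction w with
  | nil => intro _ f s _; rfl
  | cons i w ih =>
    intro hw f s hs
    rw [List.reverse_cons, opw_append]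
    show cr R i (opw R w.reverse (opw R' w (cr R' i f))) s = f s
    have h1 := ih (fun j hj => hw j (List.mem_cons_of_mem _ hj)) (cr R' i f)
    rw [(loc_cr hR i n).congr h1 s hs]
    exact cr_cr h i f s (by rw [hs]; exact hw i List.mem_cons_self)

lemma ftw_reverse (n : ℕ) : (ftw n).reverse = ftw n := by
  induction n with
  | zero => rfl
  | succ n ih => rw [ftw, List.reverse_append, List.reverse_append, List.reverse_reverse, ih,
      List.append_assoc]

lemma ftw_mem (n : ℕ) : ∀ i ∈ ftw n, i + 2 ≤ n := by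
  induction n with
  | zero => intro i hi; simp [ftw] at hi
  | succ n ih =>
    intro i hi
    simp only [ftw, List.mem_append, List.mem_reverse, List.mem_range] at hi
    rcases hi with (h | h) | h
    · omega
    · have := ih i h; omega
    · omega

lemma comm_ft {v : ℂ} (hv : Adm N v) (n : ℕ) (σ : Bool) : Commute (eo v) (ft N v n σ) :=
  comm_opw hv σ _

lemma loc_ft (v : ℂ) (n m : ℕ) (σ : Bool) : Loc m (ft N v n σ) := loc_opw (wp_Rm v σ) m _

lemma SA_opw (hS : S_SAC) {x : ℝ} (hx : 1 < x) (σ : Bool) (n : ℕ) (w : List ℕ) :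
    ∀ (f g : St N), ip x n (opw (Rm N x σ) w f) g = ip x n f (opw (Rm N x σ) w.reverse g) := by
  induction w with
  | nil => intro f g; rfl
  | cons i w ih =>
    intro f g
    rw [List.reverse_cons, opw_append]
    show ip x n (opw (Rm N x σ) w (cr (Rm N x σ) i f)) g =
      ip x n f (cr (Rm N x σ) i (opw (Rm N x σ) w.reverse g))
    rw [ih, hS N x hx]

lemma SA_ft (hS : S_SAC) {x : ℝ} (hx : 1 < x) (σ : Bool) (n : ℕ) :
    SA x n (ft N x n σ) := fun f g => by
  unfold ft
  rw [SA_opw hS hx, ftw_reverse]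

/-! ### the Casimir operator -/

lemma br_mul {v : ℂ} (hv : v ≠ 0) (a b : ℤ) :
    br v a * br v b = v ^ (a + b) + v ^ (-(a + b)) - (v ^ (-(a - b)) + v ^ (a - b)) := by
  unfold br
  rw [show -(a + b) = -a + -b by ring, show -(a - b) = -a + b by ring,
    show a - b = a + -b by ring, zpow_add₀ hv, zpow_add₀ hv, zpow_add₀ hv, zpow_add₀ hv]
  ring

lemma br_zz {v : ℂ} (hv : v ≠ 0) (n : ℕ) (y y' : ℤ) :
    zz N v n y - zz N v n y' = br v (y' - y) * br v (n * ((N : ℤ) - 1) + 1 - y - y') := by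
  rw [br_mul hv]
  unfold zz Pool.Agent.K7.H32.FT.cc
  rw [show y' - y + (n * ((N : ℤ) - 1) + 1 - y - y') = n * ((N : ℤ) - 1) - 2 * y + 1 by ring,
    show y' - y - (n * ((N : ℤ) - 1) + 1 - y - y') = -(n * ((N : ℤ) - 1) - 2 * y' + 1) by ring,
    neg_neg]

lemma comm_cas {v : ℂ} (hv : v ≠ 0) : Commute (eo (N := N) v) (cas N v) := by
  refine LinearMap.ext fun f => funext fun s => ?_
  show eo v (cas N v f) s = cas N v (eo v f) s
  unfold cas
  rw [LinearMap.add_apply, LinearMap.add_apply, map_add, Pi.add_apply, Pi.add_apply, eo_mu,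
    mu_apply]
  simp only [LinearMap.comp_apply]
  have h := ef_comm hv s (eo v f)
  have h2 := br_zz (N := N) hv s.length (isum s) (isum s + 1)
  have h3 : isum s + 1 - isum s = 1 := by ring
  have h4 : (s.length : ℤ) * ((N : ℤ) - 1) + 1 - isum s - (isum s + 1) = wtl s := by
    unfold wtl; ring
  rw [h3, h4] at h2
  linear_combination h - (eo v f s) * h2

lemma loc_cas (v : ℂ) (n : ℕ) : Loc n (cas N v) :=
  ((loc_fo v n).comp (loc_eo v n)).add (loc_mu _ n)

lemma SA_cas (hA : S_ADJ) (hP : S_POS) {x : ℝ} (hx : 1 < x) (n : ℕ) : SA x n (cas N x) := by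
  have hx0 : (x : ℂ) ≠ 0 := real_ne hx
  have h1 : SA x n ((fo (N := N) (x : ℂ)).comp (eo x)) := by
    intro f g
    set κ : ℂ := (x : ℂ) ^ (((n : ℤ) - 1) * ((N : ℤ) - 1)) with hκ
    have hκ0 : κ ≠ 0 := zpow_ne_zero _ hx0
    have hκc : (starRingEnd ℂ) κ = κ := by rw [hκ, map_zpow₀, Complex.conj_ofReal]
    have e1 : ip x n (eo x f) (eo x g) = κ * ip x n f (fo x (eo x g)) := hA N x hx n f (eo x g)
    have e2 : ip x n (eo x g) (eo x f) = κ * ip x n g (fo x (eo x f)) := hA N x hx n g (eo x f)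
    have e3 : ip x n (eo x f) (eo x g) = κ * ip x n (fo x (eo x f)) g := by
      rw [← ip_conj, e2, map_mul, hκc, ip_conj]
    exact mul_left_cancel₀ hκ0 (e3.symm.trans e1)
  refine sa_add h1 ((hP N x hx n).2.2 _ fun m y => ?_)
  unfold zz
  rw [map_add, map_zpow₀, map_zpow₀, Complex.conj_ofReal]

/-- the product of the `C - z_y` -/
noncomputable def PC (N : ℕ) (v : ℂ) (n : ℕ) : List ℕ → (St N →ₗ[ℂ] St N)
  | [] => 1
  | y :: l => (cas N v - zz N v n y • 1) * PC N v n l

lemma PC_apply (v : ℂ) (n : ℕ) (l : List ℕ) (f : St N) : PC N v n l f = pc N v n l f := by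
  induction l with
  | nil => rfl
  | cons y l ih =>
    show cas N v (PC N v n l f) - zz N v n y • PC N v n l f = _
    rw [ih]; rfl

lemma comm_PC {v : ℂ} {T : St N →ₗ[ℂ] St N} (hT : Commute T (cas N v)) (n : ℕ) (l : List ℕ) :
    Commute T (PC N v n l) := by
  induction l with
  | nil => exact Commute.one_right _
  | cons y l ih =>
    exact (hT.sub_right ((Commute.one_right T).smul_right _)).mul_right ih

lemma loc_PC (v : ℂ) (n m : ℕ) (l : List ℕ) : Loc m (PC N v n l) := by
  induction l with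
  | nil => exact loc_id m
  | cons y l ih =>
    refine Loc.mul ((loc_cas v m).sub (Loc.smul ?_ _)) ih
    exact fun f hf => hf

lemma zz_conj (x : ℝ) (n : ℕ) (y : ℤ) : (starRingEnd ℂ) (zz N x n y) = zz N x n y := by
  unfold zz
  rw [map_add, map_zpow₀, map_zpow₀, Complex.conj_ofReal]

lemma SA_PC (hA : S_ADJ) (hP : S_POS) {x : ℝ} (hx : 1 < x) (n : ℕ) (l : List ℕ) :
    SA x n (PC N x n l) := by
  induction l with
  | nil => exact sa_one x n
  | cons y l ih =>
    have h1 : SA x n (cas N (x : ℂ) - zz N (x : ℂ) n y • 1) :=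
      sa_sub (SA_cas hA hP hx n) (sa_smul (sa_one x n) (zz_conj x n y))
    refine sa_mul h1 ih ?_
    have h2 : Commute (cas N (x : ℂ) - zz N (x : ℂ) n y • 1) (PC N x n l) := by
      refine comm_PC ?_ n l
      exact (Commute.refl _).sub_left ((Commute.one_left _).smul_left _)
    exact h2

/-! ### the action on the kernel of `E` -/

lemma KE_comm {v : ℂ} {n : ℕ} {T : St N →ₗ[ℂ] St N} (hT : Commute (eo v) T) (hl : Loc n T)
    {f : St N} (hf : KE v n f) : KE v n (T f) := fun s hs => by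
  have h1 : eo v (T f) = T (eo v f) := by
    have := congrArg (fun L : St N →ₗ[ℂ] St N => L f) hT
    exact this
  rw [h1]
  exact hl (eo v f) hf s hs

lemma cas_KE {v : ℂ} {n : ℕ} {f : St N} (hf : KE v n f) (s : List (Fin N)) (hs : s.length = n) :
    cas N v f s = zz N v n (isum s) * f s := by
  unfold cas
  rw [LinearMap.add_apply, Pi.add_apply, LinearMap.comp_apply, loc_fo v n (eo v f) hf s hs,
    mu_apply, hs, zero_add]

lemma PC_KE {v : ℂ} (hv : v ≠ 0) {n : ℕ} {f : St N} (hf : KE v n f) (l : List ℕ)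
    (s : List (Fin N)) (hs : s.length = n) :
    PC N v n l f s = (l.map fun y : ℕ => zz N v n (isum s) - zz N v n y).prod * f s := by
  induction l with
  | nil => simp [PC]
  | cons y l ih =>
    show cas N v (PC N v n l f) s - zz N v n y * PC N v n l f s = _
    rw [cas_KE (KE_comm (comm_PC (comm_cas hv) n l) (loc_PC v n n l) hf) s hs, ih,
      List.map_cons, List.prod_cons]
    ring

lemma ft_KE (hE : S_EIG) {x : ℝ} (hx : 1 < x) (n : ℕ) (σ : Bool) {f : St N}
    (hf : KE (x : ℂ) n f) (s : List (Fin N)) (hs : s.length = n) :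
    ft N x n σ f s = (x : ℂ) ^ (sgn σ * ee N n (isum s)) * f s := by
  have hx0 := real_ne hx
  cases σ with
  | true =>
    rw [hE N x hx n f hf s hs]
    simp [sgn]
  | false =>
    have h1 : ∀ t : List (Fin N), t.length = n → ft N x n true f t =
        mu (fun _ y => (x : ℂ) ^ (ee N n y)) f t := fun t ht => by
      rw [hE N x hx n f hf t ht, mu_apply]
    have h2 : ft N x n false (ft N x n true f) s = f s := by
      have h3 := opw_inv (R := Rm N (x : ℂ) false) (R' := Rm N (x : ℂ) true) (wp_Rm _ _)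
        (by exact QP (adm_real hx)) (ftw n) (ftw_mem n) f s hs
      rw [ftw_reverse] at h3
      exact h3
    rw [(loc_ft (x : ℂ) n n false).congr h1 s hs] at h2
    have h4 : ft N x n false (mu (fun _ y => (x : ℂ) ^ (ee N n y)) f) =
        mu (fun _ y => (x : ℂ) ^ (ee N n y)) (ft N x n false f) := opw_mu (wp_Rm _ _) _ _ f
    rw [h4, mu_apply] at h2
    rw [← h2, ← mul_assoc, ← zpow_add₀ hx0]
    simp [sgn]

lemma ftpow_KE (hE : S_EIG) {x : ℝ} (hx : 1 < x) (n : ℕ) (σ : Bool) (A : ℕ) {f : St N}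
    (hf : KE (x : ℂ) n f) : ∀ (s : List (Fin N)), s.length = n →
    ((ft N x n σ) ^ A) f s = (x : ℂ) ^ (sgn σ * A * ee N n (isum s)) * f s := by
  have hx0 := real_ne hx
  induction A with
  | zero => intro s hs; simp
  | succ A ih =>
    intro s hs
    have h1 : ((ft N x n σ) ^ (A + 1)) f = ft N x n σ (((ft N x n σ) ^ A) f) := by
      rw [pow_succ']; rfl
    rw [h1, ft_KE hE hx n σ (KE_comm ((comm_ft (adm_real hx) n σ).pow_right A)
      ((loc_ft (x : ℂ) n n σ).pow A) hf) s hs, ih s hs, ← mul_assoc, ← zpow_add₀ hx0]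
    congr 2
    push_cast
    ring

lemma list_prod (m y : ℕ) (g : ℕ → ℂ) :
    (((List.range m).filter (· ≠ y)).map g).prod = ∏ y' ∈ (range m).erase y, g y' := by
  rw [← List.prod_toFinset g (List.nodup_range.filter _)]
  refine prod_congr ?_ fun _ _ => rfl
  ext z
  simp only [List.mem_toFinset, List.mem_filter, List.mem_range, decide_eq_true_eq, mem_erase,
    mem_range, ne_eq]
  tauto

theorem t_real (hS : S_SAC) (hA : S_ADJ) (hP : S_POS) (hN : S_NEG) (hE : S_EIG) (hR : S_PRI) :
    S_REAL := by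
  intro N x hN1 hx n σ A f s hs
  have hx0 := real_ne hx
  set l : ℕ → List ℕ := fun y => (List.range (Sn N n + 1)).filter (· ≠ y) with hl
  set c : ℕ → ℂ := fun y => (x : ℂ) ^ (sgn σ * A * ee N n y) *
    (∏ y' ∈ (range (Sn N n + 1)).erase y, (zz N (x : ℂ) n y - zz N (x : ℂ) n y'))⁻¹ with hc
  have hcc : ∀ y, (starRingEnd ℂ) (c y) = c y := by
    intro y
    simp only [hc, map_mul, map_inv₀, map_prod, map_sub, zz_conj, map_zpow₀, Complex.conj_ofReal]
  set Q : St N →ₗ[ℂ] St N := (ft N x n σ) ^ A -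
    ∑ y ∈ range (Sn N n + 1), c y • PC N x n (l y) with hQ
  have hQa : ∀ (g : St N) (t : List (Fin N)), Q g t = ((ft N x n σ) ^ A) g t -
      ∑ y ∈ range (Sn N n + 1), c y * PC N x n (l y) g t := by
    intro g t
    rw [hQ, LinearMap.sub_apply, Pi.sub_apply, LinearMap.sum_apply, Finset.sum_apply]
    rfl
  have h0 : Q f s = 0 := by
    refine hR hP N x hx n Q ?_ ?_ ?_ ?_ f s hs
    · refine sa_sub (sa_pow (SA_ft hS hx σ n) A) (sa_sum _ fun y _ => ?_)
      exact sa_smul (SA_PC hA hP hx n _) (hcc y)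
    · intro g t _
      have h1 : Commute (eo (x : ℂ)) Q := by
        refine ((comm_ft (adm_real hx) n σ).pow_right A).sub_right ?_
        refine Commute.sum_right _ _ _ fun y _ => ?_
        exact (comm_PC (comm_cas hx0) n _).smul_right _
      have h2 := congrArg (fun L : St N →ₗ[ℂ] St N => L g t) h1
      exact h2
    · refine ((loc_ft (x : ℂ) n n σ).pow A).sub (Loc.sum _ fun y _ => ?_)
      exact (loc_PC _ n n _).smul _
    · intro g hg t ht
      rw [hQa, ftpow_KE hE hx n σ A hg t ht]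
      by_cases hgt : g t = 0
      · rw [hgt, mul_zero, sum_eq_zero, sub_zero]
        intro y _
        rw [PC_KE hx0 hg _ t ht, hgt, mul_zero, mul_zero]
      · have hw : 0 ≤ wtl t := by
          by_contra h
          exact hgt (hN hA hP N x hx n g hg t ht (not_le.1 h))
        obtain ⟨Y, hY⟩ := Int.eq_ofNat_of_zero_le (isum_nonneg t)
        have hYS : Y ∈ range (Sn N n + 1) := by
          rw [mem_range]
          unfold wtl at hw
          rw [ht, hY] at hw
          have h3 : 2 * Y ≤ n * (N - 1) := by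
            zify [hN1]
            linarith
          unfold Sn
          omega
        rw [sum_eq_single Y]
        · rw [PC_KE hx0 hg _ t ht, hY, list_prod]
          simp only [hc]
          have h4 : ∏ y' ∈ (range (Sn N n + 1)).erase Y,
              (zz N (x : ℂ) n Y - zz N (x : ℂ) n y') ≠ 0 := by
            refine prod_ne_zero_iff.2 fun y' hy' => ?_
            rw [mem_erase, mem_range] at hy'
            rw [mem_range] at hYS
            rw [br_zz hx0]
            refine mul_ne_zero (br_real_ne hx ?_) (br_real_ne hx ?_)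
            · have := hy'.1
              intro h; apply this; omega
            · have h5 : 2 * Sn N n ≤ n * (N - 1) := by unfold Sn; omega
              zify [hN1] at h5
              intro h
              have h6 : (Y : ℤ) ≤ Sn N n := by exact_mod_cast Nat.lt_succ_iff.1 hYS
              have h7 : (y' : ℤ) ≤ Sn N n := by exact_mod_cast Nat.lt_succ_iff.1 hy'.2
              linarith
          have h5 := mul_inv_cancel₀ h4
          linear_combination (-(x : ℂ) ^ (sgn σ * A * ee N n Y) * g t) * h5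
        · intro y _ hyY
          rw [PC_KE hx0 hg _ t ht, list_prod, prod_eq_zero (i := Y)]
          · ring
          · rw [mem_erase]; exact ⟨hyY.symm, hYS⟩
          · rw [hY]; exact sub_self _
        · intro h; exact absurd hYS h
  rw [hQa, sub_eq_zero] at h0
  rw [h0]
  unfold rhs
  refine sum_congr rfl fun y _ => ?_
  rw [PC_apply]

end Pool.Agent.K7.H39.FTJP
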